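import Pool.Agent.KS6_55.FJT.Rep

/-!
Equivariant families labelled by the edges, and the representation of a group acting on a tree.
-/

set_option autoImplicit false

namespace Pool.Agent.KS6_55.FJT

open Pool.Agent.KS6_55.FJ SimpleGraph

section fam

variable {G V : Type} [Group G] [MulAction G V] {T : SimpleGraph V}

/-- the relation -/
def R1 (g : G) (e e' : V × V) : Prop :=
  (g • e.1 = e'.1 ∧ g • e.2 = e'.2) ∨ (g • e.1 = e'.2 ∧ g • e.2 = e'.1)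

theorem R1_mul {g h : G} {a b c : V × V} (h1 : R1 g a b) (h2 : R1 h b c) : R1 (h * g) a c := by
  unfold R1 at *
  simp only [mul_smul]
  rcases h1 with ⟨h1, h1'⟩ | ⟨h1, h1'⟩ <;> rcases h2 with ⟨h2, h2'⟩ | ⟨h2, h2'⟩ <;>
    rw [h1, h1', h2, h2'] <;> simp

theorem R1_inv {g : G} {a b : V × V} (h1 : R1 g a b) : R1 g⁻¹ b a := by
  unfold R1 at *
  rcases h1 with ⟨h1, h1'⟩ | ⟨h1, h1'⟩
  · left
    rw [← h1, ← h1', inv_smul_smul, inv_smul_smul]
    exact ⟨rfl, rfl⟩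
  · right
    rw [← h1, ← h1', inv_smul_smul, inv_smul_smul]
    exact ⟨rfl, rfl⟩

/-- edges -/
abbrev Eg (T : SimpleGraph V) : Type := {e : V × V // T.Adj e.1 e.2}

/-- the equivalence relation -/
def eS (G : Type) [Group G] [MulAction G V] (T : SimpleGraph V) : Setoid (Eg T) where
  r e e' := ∃ g : G, R1 g e.1 e'.1
  iseqv :=
    { refl := fun e => ⟨1, Or.inl ⟨one_smul _ _, one_smul _ _⟩⟩
      symm := fun ⟨g, h⟩ => ⟨g⁻¹, R1_inv h⟩
      trans := fun ⟨g, h⟩ ⟨g', h'⟩ => ⟨g' * g, R1_mul h h'⟩ }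

theorem exists_family {H : Type} [Group H] (τ : G →* H) (Pd : V → V → H → Prop)
    (hinv : ∀ (g : G) (v w : V), T.Adj v w → ¬ (g • v = w ∧ g • w = v))
    (hadj : ∀ (g : G) (v w : V), T.Adj v w → T.Adj (g • v) (g • w))
    (hex : ∀ v w, T.Adj v w → ∃ σ, Pd v w σ)
    (hsymm : ∀ v w σ, Pd v w σ → Pd w v σ)
    (heq : ∀ v w σ, Pd v w σ → ∀ g : G, Pd (g • v) (g • w) (τ g * σ * (τ g)⁻¹))
    (hcomm : ∀ v w σ, Pd v w σ → ∀ k : G, k • v = v → k • w = w → τ k * σ = σ * τ k) :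
    ∃ t : V → V → H, (∀ v w, T.Adj v w → Pd v w (t v w)) ∧
      (∀ v w, T.Adj v w → t w v = t v w) ∧
      ∀ (g : G) v w, T.Adj v w → t (g • v) (g • w) = τ g * t v w * (τ g)⁻¹ := by
  classical
  let rp : Eg T → Eg T := fun e => (Quotient.mk (eS G T) e).out
  have hrp : ∀ e, ∃ g : G, R1 g (rp e).1 e.1 := by
    intro e
    have h : (eS G T) (rp e) e := Quotient.exact (Quotient.out_eq (Quotient.mk (eS G T) e))
    exact h
  choose γ hγ using hrp
  choose σ hσ using fun e : Eg T => hex e.1.1 e.1.2 e.2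
  let tt : Eg T → H := fun e => τ (γ e) * σ (rp e) * (τ (γ e))⁻¹
  have key : ∀ (e e' : Eg T) (g : G), R1 g (rp e).1 e'.1 →
      tt e' = τ g * σ (rp e) * (τ g)⁻¹ := by
    intro e e' g hg
    have h0 : rp e' = rp e := by
      have h1 : (eS G T) e e' := ⟨g * (γ e)⁻¹, R1_mul (R1_inv (hγ e)) hg⟩
      show (Quotient.mk (eS G T) e').out = (Quotient.mk (eS G T) e).out
      rw [Quotient.sound h1]
    have h2 := hγ e'
    show τ (γ e') * σ (rp e') * (τ (γ e'))⁻¹ = _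
    rw [h0] at h2 ⊢
    have h3 : R1 ((γ e')⁻¹ * g) (rp e).1 (rp e).1 := R1_mul hg (R1_inv h2)
    rcases h3 with ⟨h3, h4⟩ | h3
    · have h5 := hcomm _ _ _ (hσ (rp e)) _ h3 h4
      rw [map_mul, map_inv] at h5
      have h6 : τ g * σ (rp e) * (τ g)⁻¹ =
        τ (γ e') * (((τ (γ e'))⁻¹ * τ g) * σ (rp e)) * (τ g)⁻¹ := by group
      rw [h6, h5]
      group
    · exact absurd h3 (hinv _ _ _ (rp e).2)
  let t : V → V → H := fun v w => if h : T.Adj v w then tt ⟨(v, w), h⟩ else 1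
  have ht : ∀ v w (h : T.Adj v w), t v w = tt ⟨(v, w), h⟩ := fun v w h => dif_pos h
  refine ⟨t, ?_, ?_, ?_⟩
  · intro v w h
    rw [ht v w h]
    have h1 := heq _ _ _ (hσ (rp ⟨(v, w), h⟩)) (γ ⟨(v, w), h⟩)
    rcases hγ ⟨(v, w), h⟩ with ⟨h2, h3⟩ | ⟨h2, h3⟩
    · rw [h2, h3] at h1
      exact h1
    · rw [h2, h3] at h1
      exact hsymm _ _ _ h1
  · intro v w h
    rw [ht v w h, ht w v h.symm]
    exact key ⟨(v, w), h⟩ ⟨(w, v), h.symm⟩ (γ ⟨(v, w), h⟩) (hγ ⟨(v, w), h⟩).symm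
  · intro g v w h
    rw [ht v w h, ht _ _ (hadj g v w h)]
    have h1 : R1 (g * γ ⟨(v, w), h⟩) (rp ⟨(v, w), h⟩).1 (g • v, g • w) :=
      R1_mul (hγ ⟨(v, w), h⟩) (Or.inl ⟨rfl, rfl⟩)
    rw [key ⟨(v, w), h⟩ ⟨(g • v, g • w), hadj g v w h⟩ _ h1, map_mul]
    show _ = τ g * (τ (γ ⟨(v, w), h⟩) * σ (rp ⟨(v, w), h⟩) * (τ (γ ⟨(v, w), h⟩))⁻¹) * (τ g)⁻¹
    group

end fam

section rep

variable {G V : Type} [Group G] [MulAction G V] {T : SimpleGraph V}

/-- elements of the kernel of the stabilizer act by translations -/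
theorem ac_trans {N : Subgroup G} [N.Normal] {I : Type} (r : G) (hr : r ∈ N)
    (z : Bs (Mo (V := V) N) I × DD) (h : r • pr z = pr z) : ∃ δ : DD, ac r z = sh δ z := by
  refine ⟨ev z.1.2.2.1 (co r z.1.2.1), ?_⟩
  unfold ac sh
  rw [(base_iff r z h).2 hr]

/-- the representation -/
theorem exists_F (hT : T.IsTree)
    (hadj : ∀ (g : G) (v w : V), T.Adj v w → T.Adj (g • v) (g • w))
    (hinv : ∀ (g : G) (v w : V), T.Adj v w → ¬ (g • v = w ∧ g • w = v))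
    (N : Subgroup G) [N.Normal]
    (hab : ∀ v : V, ∀ a ∈ N, ∀ b ∈ N, a • v = v → b • v = v → a * b = b * a) (v₀ : V) :
    ∃ (X : Type) (F : G →* Equiv.Perm (X × DD)) (D : Set (X × DD)),
      (∀ (g : G) (δ : DD) y, F g (sh δ y) = sh δ (F g y)) ∧ (∀ (g : G), ∀ y ∈ D, F g y ∈ D) ∧
      (∀ r ∈ N, ∀ v : V, r • v = v → ∀ y ∈ D, ∃ δ : DD, F r y = sh δ y) ∧
      ∀ g : G, g • v₀ = v₀ → (∀ y ∈ D, F g y = y) → g = 1 := by
  classical
  let Z : Type := ((o : Ob G V) × (G ⧸ Mo N o) × Ch (Mo N o)) × DD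
  let I : Type := ℕ → Z
  let o₀ : Ob G V := Quotient.mk _ v₀
  let i₀ : I := fun _ => (⟨o₀, ((1 : G) : G ⧸ Mo N o₀), 0⟩, 0)
  let e : Bs (Mo (V := V) N) I × DD → I := fun y n =>
    Nat.casesOn n (⟨y.1.1, y.1.2.1, y.1.2.2.1⟩, y.2) y.1.2.2.2
  have he : Function.Injective e := by
    rintro ⟨⟨o, x, α, i⟩, d⟩ ⟨⟨o', x', α', i'⟩, d'⟩ h
    have h0 : ((⟨o, x, α⟩, d) : Z) = (⟨o', x', α'⟩, d') := congrFun h 0
    have hi : i = i' := funext fun n => congrFun h (n + 1)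
    have h1 := congrArg Prod.fst h0
    have h2 : d = d' := congrArg Prod.snd h0
    simp only [Sigma.mk.injEq] at h1
    obtain ⟨rfl, h1⟩ := h1
    have h3 := eq_of_heq h1
    simp only [Prod.mk.injEq] at h3
    obtain ⟨rfl, rfl⟩ := h3
    rw [hi, h2]
  let X : Type := Bs (Mo (V := V) N) I
  let τ : G →* Equiv.Perm (X × DD) := ta (Mo (V := V) N) I
  have hτsh : ∀ g, τ g ∈ Eqv X := fun g δ y => ac_sh g δ y
  let Pd : V → V → Equiv.Perm (X × DD) → Prop := fun v w σ => σ * σ = 1 ∧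
      (∀ k : G, k • v = v → k • w = w → τ k * σ = σ * τ k) ∧
      (∀ (δ : DD) y, σ (sh δ y) = sh δ (σ y)) ∧ (∀ y, pr y = v → pr (σ y) = w) ∧
      ∀ y, pr y = w → pr (σ y) = v
  obtain ⟨t, ht1, ht2, ht3⟩ := exists_family (T := T) τ Pd hinv hadj
    (fun v w h => exists_swap hab e he v w h.ne)
    (fun v w σ ⟨h1, h2, h3, h4, h5⟩ => ⟨h1, fun k a b => h2 k b a, h3, h5, h4⟩)
    (by
      rintro v w σ ⟨h1, h2, h3, h4, h5⟩ g
      refine ⟨?_, ?_, ?_, ?_, ?_⟩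
      · have e1 : τ g * σ * (τ g)⁻¹ * (τ g * σ * (τ g)⁻¹) = τ g * (σ * σ) * (τ g)⁻¹ := by group
        rw [e1, h1]
        group
      · intro k hk1 hk2
        have h6 := h2 (g⁻¹ * k * g) (by rw [mul_smul, mul_smul, hk1, inv_smul_smul])
          (by rw [mul_smul, mul_smul, hk2, inv_smul_smul])
        rw [map_mul, map_mul, map_inv] at h6
        have e1 : τ k * (τ g * σ * (τ g)⁻¹) =
          τ g * (((τ g)⁻¹ * τ k * τ g) * σ) * (τ g)⁻¹ := by group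
        rw [e1, h6]
        group
      · exact (Eqv X).mul_mem ((Eqv X).mul_mem (hτsh g) h3) ((Eqv X).inv_mem (hτsh g))
      · intro y hy
        show pr (ac g (σ ((τ g)⁻¹ y))) = g • w
        rw [pr_ac, h4]
        rw [← map_inv]
        show pr (ac g⁻¹ y) = v
        rw [pr_ac, hy, inv_smul_smul]
      · intro y hy
        show pr (ac g (σ ((τ g)⁻¹ y))) = g • v
        rw [pr_ac, h5]
        rw [← map_inv]
        show pr (ac g⁻¹ y) = w
        rw [pr_ac, hy, inv_smul_smul])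
    (fun v w σ h => h.2.1)
  obtain ⟨U, hU⟩ := exists_pot hT v₀ t (fun v w h => by rw [ht2 v w h, (ht1 v w h).1])
  have hP : ∀ (g : G) (v w : V), (U (g • v))⁻¹ * U (g • w) =
      τ g * ((U v)⁻¹ * U w) * (τ g)⁻¹ := by
    intro g v w
    have := pot_equiv hT t U hU (fun x => g • x) (fun x y h => hadj g x y h)
      (MulAut.conj (τ g)).toMonoidHom (fun x y h => ht3 g x y h) v w
    exact this
  have hPprop : ∀ v w : V, (U v)⁻¹ * U w ∈ Eqv X ∧
      ∀ y, pr y = w → pr (((U v)⁻¹ * U w) y) = v := by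
    intro v w
    obtain ⟨p⟩ := hT.connected.preconnected v w
    induction p with
    | nil =>
      rw [inv_mul_cancel]
      exact ⟨(Eqv X).one_mem, fun y hy => hy⟩
    | cons h p ih =>
      rename_i x y z
      have e1 : (U x)⁻¹ * U z = t x y * ((U y)⁻¹ * U z) := by
        rw [hU x y h]
        group
      rw [e1]
      refine ⟨(Eqv X).mul_mem (ht1 x y h).2.2.1 ih.1, fun u hu => ?_⟩
      rw [Equiv.Perm.mul_apply]
      exact (ht1 x y h).2.2.2.2 _ (ih.2 u hu)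
  let F : G →* Equiv.Perm (X × DD) := MonoidHom.mk' (fun g => (U v₀)⁻¹ * U (g • v₀) * τ g) (by
    intro g h
    have h1 := hP g v₀ (h • v₀)
    rw [← mul_smul] at h1
    have e1 : (U v₀)⁻¹ * U ((g * h) • v₀) =
        ((U v₀)⁻¹ * U (g • v₀)) * ((U (g • v₀))⁻¹ * U ((g * h) • v₀)) := by group
    show (U v₀)⁻¹ * U ((g * h) • v₀) * τ (g * h) =
      (U v₀)⁻¹ * U (g • v₀) * τ g * ((U v₀)⁻¹ * U (h • v₀) * τ h)
    rw [e1, h1, map_mul]
    group)
  have hF : ∀ g, F g = (U v₀)⁻¹ * U (g • v₀) * τ g := fun g => rfl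
  refine ⟨X, F, {y | pr y = v₀}, ?_, ?_, ?_, ?_⟩
  · intro g
    rw [hF]
    exact (Eqv X).mul_mem (hPprop _ _).1 (hτsh g)
  · intro g y hy
    rw [hF, Equiv.Perm.mul_apply]
    apply (hPprop _ _).2
    show pr (ac g y) = _
    rw [pr_ac, show pr y = v₀ from hy]
  · intro r hr v hv y hy
    have h1 := hP r v v₀
    rw [hv] at h1
    have e1 : F r = (U v₀)⁻¹ * U v * τ r * ((U v)⁻¹ * U v₀) := by
      have e2 : (U v₀)⁻¹ * U (r • v₀) = ((U v₀)⁻¹ * U v) * ((U v)⁻¹ * U (r • v₀)) := by group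
      rw [hF, e2, h1]
      group
    let z := ((U v)⁻¹ * U v₀) y
    have hz : pr z = v := (hPprop v v₀).2 y hy
    obtain ⟨δ, hδ⟩ := ac_trans r hr z (by rw [hz, hv])
    refine ⟨δ, ?_⟩
    have e3 : F r y = ((U v₀)⁻¹ * U v) (ac r z) := by rw [e1]; rfl
    rw [e3, hδ, (hPprop v₀ v).1 δ z]
    congr 1
    show (((U v₀)⁻¹ * U v) * ((U v)⁻¹ * U v₀)) y = y
    have e4 : ((U v₀)⁻¹ * U v) * ((U v)⁻¹ * U v₀) = 1 := by group
    rw [e4]
    rfl
  · intro g hg h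
    have h1 : ∀ y : X × DD, pr y = v₀ → ac g y = y := by
      intro y hy
      have h2 := h y hy
      rw [hF, hg, inv_mul_cancel, one_mul] at h2
      exact h2
    let K : Subgroup G := MulAction.stabilizer G v₀
    obtain ⟨y, _, _⟩ := pointV (I := I) hab K le_rfl 0 i₀
    have hgN : g ∈ N := by
      have h2 := h1 y.1 y.2
      refine (base_iff g y.1 (by rw [y.2, hg])).1 ?_
      have h3 : (⟨y.1.1.1, g • y.1.1.2.1, y.1.1.2.2.1, y.1.1.2.2.2⟩ : X) = y.1.1 :=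
        congrArg Prod.fst h2
      exact congrArg Prod.fst (eq_of_heq (Sigma.ext_iff.1 h3).2)
    by_contra hne
    obtain ⟨m, hm⟩ := sep_char (H := N.subgroupOf K)
      (fun a b => Subtype.ext (Subtype.ext (hab v₀ a.1 a.2 b.1 b.2 a.1.2 b.1.2)))
      ⟨⟨g, hg⟩, hgN⟩ (fun e => hne (congrArg (fun a : N.subgroupOf K => (a.1 : G)) e))
    obtain ⟨z, _, hz⟩ := pointV (I := I) hab K le_rfl m i₀
    obtain ⟨hk, h4⟩ := (hz ⟨g, hg⟩ 1).1 (Subtype.ext ((rK_one _ _ _ _).trans (h1 z.1 z.2)))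
    apply hm
    rw [toAdd_one, add_zero] at h4
    exact h4

end rep

end Pool.Agent.KS6_55.FJT
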