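import Pool.Agent.KS6_55.FJT.Main

/-!
Actions with inversions, and quotients by the terms of the derived series.
-/

set_option autoImplicit false

namespace Pool.Agent.KS6_55.FJT

open Pool.Agent.KS6_55.FJ SimpleGraph
open Pool.Agent.Y110.FJ
open scoped commutatorElement

variable {C : ∀ (G : Type) [Group G], Prop}

theorem exists_parity {G V : Type} [Group G] [MulAction G V] {T : SimpleGraph V} (hT : T.IsTree)
    (hadj : ∀ (g : G) (v w : V), T.Adj v w → T.Adj (g • v) (g • w)) :
    ∃ χ : G →* Z2, ∀ (g : G) (v w : V), T.Adj v w → g • v = w → g • w = v → χ g ≠ 1 := by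
  obtain ⟨v₀⟩ : Nonempty V := hT.connected.nonempty
  obtain ⟨U, hU⟩ := exists_pot hT v₀ (fun _ _ : V => gen) (fun _ _ _ => gen_sq)
  have hc : ∀ (g : G) (v : V), U (g • v) = U (g • v₀) * (U v₀)⁻¹ * U v := by
    intro g v
    have h1 := pot_equiv hT (fun _ _ => gen) U hU (fun x => g • x) (fun x y h => hadj g x y h)
      (MonoidHom.id Z2) (fun _ _ _ => rfl) v₀ v
    simp only [MonoidHom.id_apply] at h1
    rw [mul_assoc, ← h1, mul_inv_cancel_left]
  refine ⟨MonoidHom.mk' (fun g => U (g • v₀) * (U v₀)⁻¹) ?_, ?_⟩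
  · intro g h
    rw [mul_smul, hc g (h • v₀)]
    group
  · intro g v w h h1 h2 h3
    have h4 : U (g • v₀) * (U v₀)⁻¹ = 1 := h3
    have h5 := hc g v
    rw [h4, one_mul, h1, hU v w h] at h5
    exact gen_ne (mul_eq_left.1 h5)

/-- **groups acting on trees, possibly with inversions** -/
theorem tree_all (hC : ClosedE C) (hm : AbCyc C) {G Q V : Type} [Group G] [Group Q]
    [MulAction G V] {T : SimpleGraph V} (π : G →* Q) (hT : T.IsTree)
    (hadj : ∀ (g : G) (v w : V), T.Adj v w → T.Adj (g • v) (g • w)) (hQ : C Q)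
    (hab : ∀ (v : V) (a b : G), a • v = v → b • v = v → π a = 1 → π b = 1 → a * b = b * a) :
    C G := by
  obtain ⟨χ, hχ⟩ := exists_parity hT hadj
  have h1 : C χ.ker := by
    refine tree_ab hC hm (π.comp χ.ker.subtype) hT (fun g v w h => hadj g v w h) ?_ hQ ?_
    · rintro g v w h ⟨h1, h2⟩
      exact hχ g v w h h1 h2 g.2
    · intro v a b h1 h2 h3 h4
      exact Subtype.ext (hab v a b h1 h2 h3 h4)
  exact hC.base.finiteIndex G χ.ker inferInstance h1

/-- quotients by the terms of the derived series -/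
theorem derived_mem (hC : ClosedE C) (hm : AbCyc C) (G : Type) [Group G] (n : ℕ) :
    C (G ⧸ derivedSeries G n) := by
  induction n with
  | zero =>
    have hs : Subsingleton (G ⧸ derivedSeries G 0) :=
      QuotientGroup.subsingleton_quotient_top
    exact hm _ ⊤ 1 (fun a _ b _ => Subsingleton.elim _ _) (by rw [top_sup_eq])
  | succ n ih => exact quot_mem hC hm (derivedSeries G n) ih

end Pool.Agent.KS6_55.FJT
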