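import Pool.Agent.KS6_55.FJT.Fam
import Pool.Graph.R_pool_sql_team_seeded_3997aac3.Q9.FJV.Tree
import Pool.Graph.R_seed8.Y179.SS.Free

/-!
Groups acting on trees with a homomorphism to a group in `C` with abelian kernels on the stabilizers.
-/

set_option autoImplicit false

namespace Pool.Agent.KS6_55.FJT

open Pool.Agent.KS6_55.FJ SimpleGraph
open Pool.Agent.Y110.FJ
open scoped commutatorElement

variable {C : ∀ (G : Type) [Group G], Prop}

theorem verb_empty (G : Type) [Group G] : Q9.FJV.verb (∅ : Set (FreeGroup ℕ)) G = ⊥ := by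
  unfold Q9.FJV.verb
  rw [Subgroup.closure_eq_bot_iff]
  rintro g ⟨w, hw, _⟩
  exact absurd hw (Set.notMem_empty w)

theorem of_quot_bot (hC : ClosedE C) {G : Type} [Group G] (N : Subgroup G) [N.Normal]
    (hN : N = ⊥) (h : C (G ⧸ N)) : C G := by
  refine hC.base.of_injective _ _ (QuotientGroup.mk' N) ?_ h
  rw [← MonoidHom.ker_eq_bot_iff, QuotientGroup.ker_mk', hN]

theorem to_quot_bot (hC : ClosedE C) {G : Type} [Group G] (N : Subgroup G) [N.Normal]
    (hN : N = ⊥) (h : C G) : C (G ⧸ N) := by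
  subst hN
  exact hC.base.of_injective _ _ (QuotientGroup.quotientBot (G := G)).toMonoidHom
    (QuotientGroup.quotientBot (G := G)).injective h

/-- groups acting on trees, the case of injective homomorphisms on the stabilizers -/
theorem tree_inj (hC : ClosedE C) {G Q V : Type} [Group G] [Group Q] [MulAction G V]
    {T : SimpleGraph V} (ρ : G →* Q) (hT : T.IsTree)
    (hadj : ∀ (g : G) (v w : V), T.Adj v w → T.Adj (g • v) (g • w))
    (hinv : ∀ (g : G) (v w : V), T.Adj v w → ¬ (g • v = w ∧ g • w = v))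
    (hρ : ∀ (g : G) (v : V), g • v = v → ρ g = 1 → g = 1) (hQ : C Q) : C G := by
  have h1 := Q9.FJV.tree_mem (W := ∅) ρ hC (fun n => to_quot_bot hC _ (verb_empty _)
    (Pool.Agent.Y179.SS.t_free C hC.base (Fin n))) hQ hT hadj hinv hρ
  refine of_quot_bot hC _ ?_ h1
  unfold Q9.FJV.verbIn
  rw [verb_empty, Subgroup.map_bot]

/-- **groups acting on trees** -/
theorem tree_ab (hC : ClosedE C) (hm : AbCyc C) {G Q V : Type} [Group G] [Group Q] [MulAction G V]
    {T : SimpleGraph V} (π : G →* Q) (hT : T.IsTree)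
    (hadj : ∀ (g : G) (v w : V), T.Adj v w → T.Adj (g • v) (g • w))
    (hinv : ∀ (g : G) (v w : V), T.Adj v w → ¬ (g • v = w ∧ g • w = v)) (hQ : C Q)
    (hab : ∀ (v : V) (a b : G), a • v = v → b • v = v → π a = 1 → π b = 1 → a * b = b * a) :
    C G := by
  let S : Set G := {s | π s = 1 ∧ ∃ v : V, s • v = v}
  have hS : ∀ s ∈ S, ∃ v : V, s • v = v := fun s hs => hs.2
  let R : Subgroup G := Subgroup.normalClosure S
  have hRπ : R ≤ π.ker := Subgroup.normalClosure_le_normal (fun s hs => hs.1)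
  -- the quotient by `R`
  have hCR : C (G ⧸ R) := by
    have hker : R ≤ (MulAction.toPermHom G (QV S V)).ker := by
      intro r hr
      show MulAction.toPermHom G (QV S V) r = 1
      ext a
      induction a using Quotient.inductionOn with
      | h v => exact (qm_eq S).2 ⟨r, hr, rfl⟩
    letI : MulAction (G ⧸ R) (QV S V) := MulAction.compHom (QV S V)
      (QuotientGroup.lift R (MulAction.toPermHom G (QV S V)) hker)
    have hsm : ∀ (g : G) (a : QV S V), ((g : G ⧸ R)) • a = g • a := fun g a => rfl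
    refine tree_inj hC (QuotientGroup.lift R π hRπ) (QT_isTree S hT hadj hS) ?_ ?_ ?_ hQ
    · intro x a b h
      obtain ⟨g, rfl⟩ := QuotientGroup.mk_surjective x
      rw [hsm, hsm]
      exact QT_adj S hadj g a b h
    · intro x a b h
      obtain ⟨g, rfl⟩ := QuotientGroup.mk_surjective x
      rw [hsm, hsm]
      exact QT_inv S hT hadj hinv hS g a b h
    · intro x a h1 h2
      obtain ⟨g, rfl⟩ := QuotientGroup.mk_surjective x
      rw [hsm] at h1
      have h2' : π g = 1 := h2
      induction a using Quotient.inductionOn with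
      | h v =>
        obtain ⟨r, hr, h3⟩ := (qm_eq S (v := g • v) (w := v)).1 h1
        have h4 : r⁻¹ * g ∈ S := by
          refine ⟨?_, v, ?_⟩
          · have h5 : π r = 1 := hRπ hr
            rw [map_mul, map_inv, h5, h2', inv_one, one_mul]
          · rw [mul_smul, ← h3, inv_smul_smul]
        have h5 : g = r * (r⁻¹ * g) := by group
        rw [QuotientGroup.eq_one_iff, h5]
        exact R.mul_mem hr (Subgroup.subset_normalClosure h4)
  -- the vertex stabilizers embed in `G / [R, R]`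
  refine tree_inj hC (QuotientGroup.mk' ⁅R, R⁆) hT hadj hinv ?_ (quot_mem hC hm R hCR)
  intro g v₀ hg h1
  have hgR : g ∈ ⁅R, R⁆ := (QuotientGroup.eq_one_iff g).1 h1
  obtain ⟨X, F, D, hF1, hF2, hF3, hF4⟩ := exists_F hT hadj hinv π.ker
    (fun v a ha b hb h h' => hab v a b h h' ha hb) v₀
  let A : Subgroup G :=
    { carrier := {r | ∀ y ∈ D, ∃ δ : DD, F r y = sh δ y}
      mul_mem' := by
        intro a b ha hb y hy
        obtain ⟨δ, hδ⟩ := hb y hy
        obtain ⟨ε, hε⟩ := ha y hy
        refine ⟨ε + δ, ?_⟩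
        rw [map_mul, Equiv.Perm.mul_apply, hδ, hF1, hε, sh_sh]
      one_mem' := fun y _ => ⟨0, by
        rw [map_one]
        unfold sh
        rw [add_zero]
        rfl⟩
      inv_mem' := by
        intro a ha y hy
        obtain ⟨δ, hδ⟩ := ha y hy
        refine ⟨-δ, ?_⟩
        rw [map_inv, Equiv.Perm.inv_eq_iff_eq, hF1, hδ, sh_sh]
        unfold sh
        rw [add_neg_cancel, add_zero] }
  have hA : A.Normal := ⟨fun a ha g y hy => by
    obtain ⟨δ, hδ⟩ := ha (F g⁻¹ y) (hF2 _ _ hy)
    refine ⟨δ, ?_⟩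
    rw [map_mul, map_mul, Equiv.Perm.mul_apply, Equiv.Perm.mul_apply, hδ, hF1,
      ← Equiv.Perm.mul_apply, ← map_mul, mul_inv_cancel, map_one]
    rfl⟩
  have hRA : R ≤ A := Subgroup.normalClosure_le_normal (by
    rintro s ⟨h1, v, hv⟩
    exact hF3 s h1 v hv)
  let B : Subgroup G :=
    { carrier := {r | ∀ y ∈ D, F r y = y}
      mul_mem' := by
        intro a b ha hb y hy
        rw [map_mul, Equiv.Perm.mul_apply, hb y hy, ha y hy]
      one_mem' := fun y _ => by rw [map_one]; rfl
      inv_mem' := by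
        intro a ha y hy
        rw [map_inv, Equiv.Perm.inv_eq_iff_eq, ha y hy] }
  have hRB : ⁅R, R⁆ ≤ B := by
    rw [Subgroup.commutator_le]
    intro a ha b hb y hy
    have hc : ∀ z ∈ D, F a (F b z) = F b (F a z) := by
      intro z hz
      obtain ⟨δ, hδ⟩ := hRA ha z hz
      obtain ⟨ε, hε⟩ := hRA hb z hz
      rw [hδ, hε, hF1, hF1, hδ, hε, sh_sh, sh_sh, add_comm]
    have e1 : ⁅a, b⁆ = a * b * a⁻¹ * b⁻¹ := commutatorElement_def a b
    have h3 := hc (F a⁻¹ (F b⁻¹ y)) (hF2 _ _ (hF2 _ _ hy))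
    rw [e1]
    simp only [map_mul, Equiv.Perm.mul_apply]
    rw [h3]
    have e2 : ∀ (c : G) z, F c (F c⁻¹ z) = z := by
      intro c z
      rw [← Equiv.Perm.mul_apply, ← map_mul, mul_inv_cancel, map_one]
      rfl
    rw [e2, e2]
  exact hF4 g hg (hRB hgR)

end Pool.Agent.KS6_55.FJT
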