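import Mathlib

/-!
Potentials on trees, and quotients of trees by groups generated by elements that fix vertices.
-/

set_option autoImplicit false

namespace Pool.Agent.KS6_55.FJT

open SimpleGraph

section pot

variable {V H : Type} [Group H] {T : SimpleGraph V}

/-- the product along a walk -/
def wp (t : V → V → H) : ∀ {v w : V}, T.Walk v w → H
  | _, _, .nil => 1
  | v, _, .cons (v := u) _ p => t v u * wp t p

theorem wp_append (t : V → V → H) {a b c : V} (p : T.Walk a b) (q : T.Walk b c) :
    wp t (p.append q) = wp t p * wp t q := by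
  induction p with
  | nil => simp [wp]
  | cons h p ih => simp [wp, ih, mul_assoc]

/-- potentials on trees -/
theorem exists_pot (hT : T.IsTree) (v₀ : V) (t : V → V → H)
    (ht : ∀ v w, T.Adj v w → t v w * t w v = 1) :
    ∃ U : V → H, ∀ v w, T.Adj v w → U w = U v * t v w := by
  classical
  choose P hP hPu using fun w => hT.existsUnique_path v₀ w
  refine ⟨fun w => wp t (P w), fun v w h => ?_⟩
  by_cases hw : w ∈ (P v).support
  · have h1 : (P v).takeUntil w hw = P w := hPu w _ ((hP v).takeUntil hw)
    have h2 : (P v).dropUntil w hw = Walk.cons h.symm Walk.nil := by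
      obtain ⟨q, _, hq⟩ := hT.existsUnique_path w v
      rw [hq _ ((hP v).dropUntil hw), hq _ (show (Walk.cons h.symm Walk.nil).IsPath by
        simp [h.ne'])]
    have h3 := (P v).take_spec hw
    have h4 : wp t (P v) = wp t (P w) * t w v := by
      conv_lhs => rw [← h3, wp_append, h1, h2]
      simp [wp]
    show wp t (P w) = wp t (P v) * t v w
    rw [h4, mul_assoc, ht w v h.symm, mul_one]
  · have h1 : (P v).concat h = P w := hPu w _ ((hP v).concat hw h)
    show wp t (P w) = wp t (P v) * t v w
    rw [← h1, Walk.concat_eq_append, wp_append]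
    simp [wp]

/-- differences of the potential are equivariant -/
theorem pot_equiv (hT : T.IsTree) (t : V → V → H) (U : V → H)
    (hU : ∀ v w, T.Adj v w → U w = U v * t v w) (g : V → V)
    (hg : ∀ v w, T.Adj v w → T.Adj (g v) (g w)) (a : H →* H)
    (ha : ∀ v w, T.Adj v w → t (g v) (g w) = a (t v w)) (v w : V) :
    (U (g v))⁻¹ * U (g w) = a ((U v)⁻¹ * U w) := by
  obtain ⟨p⟩ := hT.connected.preconnected v w
  induction p with
  | nil => simp
  | cons h p ih =>
    rename_i x y z
    have e1 : (U (g x))⁻¹ * U (g z) = ((U (g x))⁻¹ * U (g y)) * ((U (g y))⁻¹ * U (g z)) := by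
      group
    have e2 : (U x)⁻¹ * U z = ((U x)⁻¹ * U y) * ((U y)⁻¹ * U z) := by group
    rw [e1, e2, map_mul, ih, hU _ _ h, hU _ _ (hg _ _ h), ha _ _ h]
    group

end pot

section quot

variable {G V : Type} [Group G] [MulAction G V] {T : SimpleGraph V}

/-- potentials of invariant labels are invariant -/
theorem pot_inv {H : Type} [Group H] (hT : T.IsTree)
    (hadj : ∀ (g : G) (v w : V), T.Adj v w → T.Adj (g • v) (g • w)) (S : Set G)
    (hS : ∀ s ∈ S, ∃ v : V, s • v = v) (t : V → V → H)
    (htR : ∀ r ∈ Subgroup.normalClosure S, ∀ v w, T.Adj v w → t (r • v) (r • w) = t v w)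
    (U : V → H) (hU : ∀ v w, T.Adj v w → U w = U v * t v w) :
    ∀ r ∈ Subgroup.normalClosure S, ∀ v, U (r • v) = U v := by
  let D : Subgroup G :=
    { carrier := {g | ∀ v, U (g • v) = U v}
      mul_mem' := by
        intro a b ha hb v
        rw [mul_smul, ha, hb]
      one_mem' := fun v => by rw [one_smul]
      inv_mem' := by
        intro a ha v
        rw [← ha (a⁻¹ • v), smul_inv_smul] }
  have hle : Subgroup.normalClosure S ≤ D := by
    rw [Subgroup.normalClosure, Subgroup.closure_le]
    intro c hc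
    have hcR : c ∈ Subgroup.normalClosure S := Subgroup.conjugatesOfSet_subset_normalClosure hc
    obtain ⟨s, hs, g, hg⟩ : ∃ s ∈ S, IsConj s c := Group.mem_conjugatesOfSet_iff.1 hc
    obtain ⟨v, hv⟩ := hS s hs
    have hgs : c * (g : G) = g * s := hg.symm
    have hfix : c • ((g : G) • v) = (g : G) • v := by
      rw [← mul_smul, hgs, mul_smul, hv]
    intro w
    have h1 := pot_equiv hT t U hU (fun x => c • x) (fun x y h => hadj c x y h) (MonoidHom.id H)
      (fun x y h => htR c hcR x y h) ((g : G) • v) w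
    simp only [MonoidHom.id_apply] at h1
    rw [hfix] at h1
    exact mul_left_cancel h1
  exact fun r hr v => hle hr v

variable (S : Set G)

/-- the vertices of the quotient -/
abbrev QV (V : Type) [MulAction G V] : Type :=
  Quotient (MulAction.orbitRel (Subgroup.normalClosure S) V)

/-- the quotient map -/
def qm (v : V) : QV S V := Quotient.mk _ v

theorem qm_eq {v w : V} : qm S v = qm S w ↔ ∃ r ∈ Subgroup.normalClosure S, r • w = v := by
  constructor
  · intro h
    obtain ⟨r, hr⟩ := Quotient.exact h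
    exact ⟨r, r.2, hr⟩
  · rintro ⟨r, hr, h⟩
    exact Quotient.sound ⟨⟨r, hr⟩, h⟩

/-- the quotient graph -/
def QT (T : SimpleGraph V) : SimpleGraph (QV S V) where
  Adj a b := a ≠ b ∧ ∃ v w, T.Adj v w ∧ qm S v = a ∧ qm S w = b
  symm := ⟨by
    rintro a b ⟨h, v, w, h1, h2, h3⟩
    exact ⟨h.symm, w, v, h1.symm, h3, h2⟩⟩
  loopless := ⟨fun a h => h.1 rfl⟩

/-- the action on the quotient -/
instance actQ : MulAction G (QV S V) where
  smul g a := Quotient.map (fun v => g • v) (by
    rintro v w ⟨r, hr⟩
    refine ⟨⟨g * r * g⁻¹, Subgroup.normalClosure_normal.conj_mem _ r.2 g⟩, ?_⟩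
    have hr' : (r : G) • w = v := hr
    show (g * r * g⁻¹) • (g • w) = g • v
    rw [← hr', mul_smul, inv_smul_smul, mul_smul]) a
  one_smul a := by
    induction a using Quotient.inductionOn with
    | h v =>
      show qm S ((1 : G) • v) = qm S v
      rw [one_smul]
  mul_smul g h a := by
    induction a using Quotient.inductionOn with
    | h v =>
      show qm S ((g * h) • v) = qm S (g • (h • v))
      rw [mul_smul]

theorem smul_qm (g : G) (v : V) : g • qm S v = qm S (g • v) := rfl

/-- the two element group -/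
abbrev Z2 : Type := Multiplicative (ZMod 2)

/-- the generator -/
def gen : Z2 := Multiplicative.ofAdd 1

theorem gen_sq : gen * gen = 1 := by decide

theorem gen_ne : gen ≠ 1 := by decide

theorem QT_isTree (hT : T.IsTree)
    (hadj : ∀ (g : G) (v w : V), T.Adj v w → T.Adj (g • v) (g • w))
    (hS : ∀ s ∈ S, ∃ v : V, s • v = v) : (QT S T).IsTree := by
  classical
  have hne : Nonempty V := hT.connected.nonempty
  obtain ⟨v₀⟩ := hne
  refine ⟨?_, ?_⟩
  · have hreach : ∀ v w : V, (QT S T).Reachable (qm S v) (qm S w) := by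
      intro v w
      obtain ⟨p⟩ := hT.connected.preconnected v w
      induction p with
      | nil => exact Reachable.refl _
      | cons h p ih =>
        rename_i x y z
        by_cases e : qm S x = qm S y
        · rw [e]; exact ih
        · exact (Adj.reachable (show (QT S T).Adj (qm S x) (qm S y) from
            ⟨e, x, y, h, rfl, rfl⟩)).trans ih
    haveI : Nonempty (QV S V) := ⟨qm S v₀⟩
    refine ⟨fun a b => ?_⟩
    induction a using Quotient.inductionOn with
    | h v =>
      induction b using Quotient.inductionOn with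
      | h w => exact hreach v w
  · rw [isAcyclic_iff_forall_adj_isBridge]
    intro a b hab
    rw [isBridge_iff_adj_and_forall_walk_mem_edges]
    let t : V → V → Z2 := fun x y => if s(qm S x, qm S y) = s(a, b) then gen else 1
    have ht : ∀ v w, T.Adj v w → t v w * t w v = 1 := by
      intro v w _
      have e : t w v = t v w := by
        show (if _ then _ else _) = (if _ then _ else _)
        rw [Sym2.eq_swap]
      rw [e]
      show (if _ then _ else _) * (if _ then _ else _) = _
      split_ifs
      · exact gen_sq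
      · rfl
    obtain ⟨U, hU⟩ := exists_pot hT v₀ t ht
    have hinv := pot_inv hT hadj S hS t (by
      intro r hr v w _
      have e : ∀ x : V, qm S (r • x) = qm S x := fun x => (qm_eq S).2 ⟨r, hr, rfl⟩
      show (if _ then _ else _) = (if _ then _ else _)
      rw [e, e]) U hU
    have hd : ∀ v w, qm S v = qm S w → U v = U w := by
      intro v w h
      obtain ⟨r, hr, rfl⟩ := (qm_eq S).1 h
      exact hinv r hr w
    let u : QV S V → Z2 := fun a => U a.out
    have hu : ∀ v, u (qm S v) = U v := fun v => hd _ _ (Quotient.out_eq _)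
    have hedge : ∀ c d, (QT S T).Adj c d → s(c, d) ≠ s(a, b) → u c = u d := by
      rintro c d ⟨_, v, w, h1, rfl, rfl⟩ h2
      rw [hu, hu, hU v w h1]
      show U v = U v * (if _ then _ else _)
      rw [if_neg h2, mul_one]
    intro p
    by_contra hp
    have hwalk : ∀ {c d : QV S V} (q : (QT S T).Walk c d), s(a, b) ∉ q.edges → u c = u d := by
      intro c d q
      induction q with
      | nil => exact fun _ => rfl
      | cons h q ih =>
        intro hq
        rw [Walk.edges_cons, List.mem_cons, not_or] at hq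
        exact (hedge _ _ h (fun e => hq.1 e.symm)).trans (ih hq.2)
    have h1 := hwalk p hp
    obtain ⟨_, v, w, h2, rfl, rfl⟩ := hab
    rw [hu, hu, hU v w h2] at h1
    have h3 : t v w = gen := if_pos rfl
    rw [h3] at h1
    exact gen_ne (left_eq_mul.1 h1)

theorem QT_adj (hadj : ∀ (g : G) (v w : V), T.Adj v w → T.Adj (g • v) (g • w))
    (g : G) (a b : QV S V) (h : (QT S T).Adj a b) : (QT S T).Adj (g • a) (g • b) := by
  obtain ⟨h1, v, w, h2, rfl, rfl⟩ := h
  exact ⟨fun e => h1 (MulAction.injective g e), g • v, g • w, hadj g v w h2, rfl, rfl⟩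

theorem QT_inv (hT : T.IsTree)
    (hadj : ∀ (g : G) (v w : V), T.Adj v w → T.Adj (g • v) (g • w))
    (hinv : ∀ (g : G) (v w : V), T.Adj v w → ¬ (g • v = w ∧ g • w = v))
    (hS : ∀ s ∈ S, ∃ v : V, s • v = v) (g : G) (a b : QV S V) (h : (QT S T).Adj a b) :
    ¬ (g • a = b ∧ g • b = a) := by
  classical
  obtain ⟨hab, v, w, hvw, rfl, rfl⟩ := h
  rintro ⟨h1, h2⟩
  rw [smul_qm, qm_eq] at h1 h2
  obtain ⟨r, hr, h1⟩ := h1
  obtain ⟨r', hr', h2⟩ := h2
  let Pr : V → V → Prop := fun x y => ∃ q ∈ Subgroup.normalClosure S,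
    (q • v = x ∧ q • w = y) ∨ (q • v = y ∧ q • w = x)
  have hPs : ∀ x y, Pr x y ↔ Pr y x := by
    intro x y
    constructor
    · rintro ⟨q, hq, h⟩
      exact ⟨q, hq, h.symm⟩
    · rintro ⟨q, hq, h⟩
      exact ⟨q, hq, h.symm⟩
  have hPm : ∀ s ∈ Subgroup.normalClosure S, ∀ x y, Pr x y → Pr (s • x) (s • y) := by
    rintro s hs x y ⟨q, hq, h⟩
    refine ⟨s * q, Subgroup.mul_mem _ hs hq, ?_⟩
    rcases h with ⟨h, h'⟩ | ⟨h, h'⟩
    · exact Or.inl ⟨by rw [mul_smul, h], by rw [mul_smul, h']⟩
    · exact Or.inr ⟨by rw [mul_smul, h], by rw [mul_smul, h']⟩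
  have hPi : ∀ s ∈ Subgroup.normalClosure S, ∀ x y, Pr (s • x) (s • y) ↔ Pr x y := by
    intro s hs x y
    refine ⟨fun h => ?_, hPm s hs x y⟩
    have := hPm s⁻¹ (Subgroup.inv_mem _ hs) _ _ h
    rwa [inv_smul_smul, inv_smul_smul] at this
  let t : V → V → Z2 := fun x y => if Pr x y then gen else 1
  have ht : ∀ v w, T.Adj v w → t v w * t w v = 1 := by
    intro v w _
    have e : t w v = t v w := by
      show (if _ then _ else _) = (if _ then _ else _)
      rw [if_congr (hPs w v) rfl rfl]
    rw [e]
    show (if _ then _ else _) * (if _ then _ else _) = _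
    split_ifs
    · exact gen_sq
    · rfl
  obtain ⟨U, hU⟩ := exists_pot hT v t ht
  have hinvU := pot_inv hT hadj S hS t (by
    intro r hr v w _
    show (if _ then _ else _) = (if _ then _ else _)
    rw [if_congr (hPi r hr v w) rfl rfl]) U hU
  have e1 : U w = U v * gen := by
    rw [hU v w hvw]
    congr 1
    exact if_pos ⟨1, Subgroup.one_mem _, Or.inl ⟨one_smul _ _, one_smul _ _⟩⟩
  have e2 := hU _ _ (hadj g v w hvw)
  rw [← h1, ← h2, hinvU r hr, hinvU r' hr'] at e2
  have e3 : Pr (r • w) (r' • v) := by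
    by_contra hn
    have h3 : t (r • w) (r' • v) = 1 := if_neg hn
    rw [h3, mul_one, e1] at e2
    exact gen_ne (left_eq_mul.1 e2)
  obtain ⟨q, hq, h | h⟩ := e3
  · apply hab
    rw [qm_eq]
    refine ⟨q⁻¹ * r, Subgroup.mul_mem _ (Subgroup.inv_mem _ hq) hr, ?_⟩
    rw [mul_smul, ← h.1, inv_smul_smul]
  · apply hinv (q⁻¹ * g) v w hvw
    refine ⟨?_, ?_⟩
    · rw [mul_smul, ← h1, ← h.2, inv_smul_smul]
    · rw [mul_smul, ← h2, ← h.1, inv_smul_smul]

end quot

end Pool.Agent.KS6_55.FJT
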