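import Pool.Agent.KS6_55.FJT.Pot
import Pool.Agent.KS6_55.FJ.Am

/-!
The set with a free action of `ℚ/ℤ`, on which a group acting on a set of vertices acts, whose
fibres over the vertices have all the characters of the kernels of the stabilizers.
-/

set_option autoImplicit false

namespace Pool.Agent.KS6_55.FJT

open Pool.Agent.KS6_55.FJ

section basics

variable {G : Type} [Group G] {O : Type} (M : O → Subgroup G) (I : Type)

/-- the base -/
abbrev Bs : Type := (o : O) × (G ⧸ M o) × Ch (M o) × I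

variable {M I}

/-- the cocycle -/
noncomputable def co {N : Subgroup G} (h : G) (x : G ⧸ N) : G := (h • x).out⁻¹ * h * x.out

theorem co_mem {N : Subgroup G} (h : G) (x : G ⧸ N) : co h x ∈ N := by
  unfold co
  rw [mul_assoc]
  apply QuotientGroup.eq.1
  rw [QuotientGroup.out_eq']
  conv_lhs => rw [← QuotientGroup.out_eq' x]
  rfl

theorem co_mul {N : Subgroup G} (h k : G) (x : G ⧸ N) : co (h * k) x = co h (k • x) * co k x := by
  unfold co
  rw [mul_smul]
  group

theorem co_one {N : Subgroup G} (x : G ⧸ N) : co 1 x = 1 := by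
  unfold co
  rw [one_smul]
  group

/-- the action -/
noncomputable def ac (g : G) (y : Bs M I × DD) : Bs M I × DD :=
  (⟨y.1.1, g • y.1.2.1, y.1.2.2.1, y.1.2.2.2⟩, y.2 + ev y.1.2.2.1 (co g y.1.2.1))

theorem ac_one (y : Bs M I × DD) : ac 1 y = y := by
  unfold ac
  rw [one_smul, co_one, ev_one, add_zero]

theorem ac_mul (h k : G) (y : Bs M I × DD) : ac (h * k) y = ac h (ac k y) := by
  unfold ac
  simp only
  rw [mul_smul, co_mul, ev_mul _ (co_mem _ _) (co_mem _ _), add_assoc,
    add_comm (ev _ (co h _))]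

theorem ac_sh (h : G) (δ : DD) (y : Bs M I × DD) : ac h (sh δ y) = sh δ (ac h y) := by
  unfold ac sh
  simp only
  rw [add_right_comm]

variable (M I)

/-- the action as a homomorphism -/
noncomputable def ta : G →* Equiv.Perm (Bs M I × DD) := permHom ac ac_one ac_mul

variable {M I}

theorem ta_apply (g : G) (y : Bs M I × DD) : ta M I g y = ac g y := rfl

end basics

section main

variable {G V : Type} [Group G] [MulAction G V] (N : Subgroup G) [hN : N.Normal]

/-- orbits -/
abbrev Ob (G V : Type) [Group G] [MulAction G V] : Type := MulAction.orbitRel.Quotient G V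

/-- representatives -/
noncomputable def rp (o : Ob G V) : V := Quotient.out o

/-- the kernels of the stabilizers of the representatives -/
noncomputable def Mo (o : Ob G V) : Subgroup G := N ⊓ MulAction.stabilizer G (rp o)

variable {N} {I : Type}

/-- the projection to the vertices -/
noncomputable def pr (y : Bs (Mo (V := V) N) I × DD) : V := y.1.2.1.out • rp y.1.1

theorem pr_sh (δ : DD) (y : Bs (Mo (V := V) N) I × DD) : pr (sh δ y) = pr y := rfl

theorem pr_ac (g : G) (y : Bs (Mo (V := V) N) I × DD) : pr (ac g y) = g • pr y := by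
  unfold pr ac
  simp only
  have h1 : co g y.1.2.1 ∈ Mo N y.1.1 := co_mem g y.1.2.1
  have h2 : co g y.1.2.1 • rp y.1.1 = rp y.1.1 := h1.2
  unfold co at h2
  rw [mul_assoc, mul_smul, inv_smul_eq_iff, mul_smul] at h2
  exact h2.symm

/-- conjugation by the representative of the coset -/
noncomputable def conjRep {v : V} {o : Ob G V} (b : G) (hb : b • rp o = v) (K : Subgroup G)
    (hK : K ≤ MulAction.stabilizer G v) : N.subgroupOf K →* Mo N o where
  toFun k := ⟨b⁻¹ * (k : K) * b, by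
    refine ⟨?_, ?_⟩
    · have := hN.conj_mem _ k.2 b⁻¹
      rwa [inv_inv] at this
    · show (b⁻¹ * ((k : K) : G) * b) • rp o = rp o
      have h1 : ((k : K) : G) • v = v := hK k.1.2
      rw [mul_assoc, mul_smul, mul_smul, hb, h1, ← hb, inv_smul_smul]⟩
  map_one' := by
    apply Subtype.ext
    simp
  map_mul' := fun a b => by
    apply Subtype.ext
    simp only [Subgroup.coe_mul]
    group

theorem conjRep_injective {v : V} {o : Ob G V} (b : G) (hb : b • rp o = v) (K : Subgroup G)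
    (hK : K ≤ MulAction.stabilizer G v) :
    Function.Injective (conjRep (N := N) b hb K hK) := by
  intro k l h
  have h1 : b⁻¹ * ((k : K) : G) * b = b⁻¹ * ((l : K) : G) * b := congrArg Subtype.val h
  apply Subtype.ext
  apply Subtype.ext
  exact mul_left_cancel (mul_right_cancel h1)

/-- the fibre -/
abbrev Fb (N : Subgroup G) (I : Type) (v : V) : Type :=
  {y : Bs (Mo (V := V) N) I × DD // pr y = v}

/-- the action of `K × ℚ/ℤ` on the fibre -/
noncomputable def rK (v : V) (K : Subgroup G) (hK : K ≤ MulAction.stabilizer G v) :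
    K × Multiplicative DD →* Equiv.Perm (Fb N I v) :=
  permHom (fun l y => ⟨sh l.2.toAdd (ac (l.1 : G) y.1), by
      rw [pr_sh, pr_ac, y.2]
      exact hK l.1.2⟩)
    (fun y => by
      apply Subtype.ext
      simp only [Prod.fst_one, Prod.snd_one, Subgroup.coe_one, ac_one]
      unfold sh
      rw [toAdd_one, add_zero])
    (fun l m y => by
      apply Subtype.ext
      simp only [Prod.fst_mul, Prod.snd_mul, Subgroup.coe_mul, ac_mul, ac_sh, toAdd_mul]
      unfold sh
      simp only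
      rw [add_assoc, add_comm (Multiplicative.toAdd m.2)])

/-- when the base point is fixed -/
theorem base_iff (g : G) (y : Bs (Mo (V := V) N) I × DD) (hg : g • pr y = pr y) :
    g • y.1.2.1 = y.1.2.1 ↔ g ∈ N := by
  have e1 : g • y.1.2.1 = y.1.2.1 ↔ y.1.2.1.out⁻¹ * g * y.1.2.1.out ∈ Mo N y.1.1 := by
    conv_lhs => rw [← QuotientGroup.out_eq' y.1.2.1]
    rw [show g • ((y.1.2.1.out : G) : G ⧸ Mo N y.1.1) =
      ((g * y.1.2.1.out : G) : G ⧸ Mo N y.1.1) from rfl, eq_comm, QuotientGroup.eq, mul_assoc]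
  rw [e1]
  constructor
  · intro h
    have := hN.conj_mem _ h.1 y.1.2.1.out
    have e : y.1.2.1.out * (y.1.2.1.out⁻¹ * g * y.1.2.1.out) * y.1.2.1.out⁻¹ = g := by group
    rwa [e] at this
  · intro h
    refine ⟨?_, ?_⟩
    · have := hN.conj_mem _ h y.1.2.1.out⁻¹
      rwa [inv_inv] at this
    · show (y.1.2.1.out⁻¹ * g * y.1.2.1.out) • rp y.1.1 = rp y.1.1
      rw [mul_assoc, mul_smul, mul_smul, inv_smul_eq_iff]
      exact hg

theorem fixK {v : V} (K : Subgroup G) (hK : K ≤ MulAction.stabilizer G v) (k : K)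
    (δ : Multiplicative DD) (y : Fb N I v) :
    rK v K hK (k, δ) y = y ↔ ∃ hk : k ∈ N.subgroupOf K,
      y.1.1.2.2.1 (Additive.ofMul (conjRep (N := N) y.1.1.2.1.out y.2 K hK ⟨k, hk⟩)) +
        δ.toAdd = 0 := by
  have e : (rK v K hK (k, δ) y).1 = ((⟨y.1.1.1, (k : G) • y.1.1.2.1, y.1.1.2.2.1, y.1.1.2.2.2⟩ :
      Bs (Mo (V := V) N) I), y.1.2 + ev y.1.1.2.2.1 (co (k : G) y.1.1.2.1) + δ.toAdd) := rfl
  have hk0 : (k : G) • pr y.1 = pr y.1 := by
    rw [y.2]
    exact hK k.2
  have key : ∀ hk : k ∈ N.subgroupOf K,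
      ev y.1.1.2.2.1 (y.1.1.2.1.out⁻¹ * (k : G) * y.1.1.2.1.out) =
      y.1.1.2.2.1 (Additive.ofMul (conjRep (N := N) y.1.1.2.1.out y.2 K hK ⟨k, hk⟩)) :=
    fun hk => ev_of_mem _ (conjRep (N := N) y.1.1.2.1.out y.2 K hK ⟨k, hk⟩).2
  rw [Subtype.ext_iff, e]
  constructor
  · intro h
    have h1 : (k : G) • y.1.1.2.1 = y.1.1.2.1 := by
      have h2 : (⟨y.1.1.1, (k : G) • y.1.1.2.1, y.1.1.2.2.1, y.1.1.2.2.2⟩ :
        Bs (Mo (V := V) N) I) = y.1.1 := congrArg Prod.fst h
      have h3 := (Sigma.ext_iff.1 h2).2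
      exact congrArg Prod.fst (eq_of_heq h3)
    have hk : (k : G) ∈ N := (base_iff _ _ hk0).1 h1
    refine ⟨hk, ?_⟩
    have h2 : y.1.2 + ev y.1.1.2.2.1 (co (k : G) y.1.1.2.1) + δ.toAdd = y.1.2 :=
      congrArg Prod.snd h
    unfold co at h2
    rw [h1, key hk, add_assoc] at h2
    exact left_eq_add.1 h2.symm
  · rintro ⟨hk, h2⟩
    have h3 : (k : G) • y.1.1.2.1 = y.1.1.2.1 := (base_iff _ _ hk0).2 hk
    have h4 : y.1.2 + ev y.1.1.2.2.1 (co (k : G) y.1.1.2.1) + δ.toAdd = y.1.2 := by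
      unfold co
      rw [h3, key hk, add_assoc, h2, add_zero]
    rw [h3, h4]

/-- the character of a point -/
theorem labelV {v : V} (K : Subgroup G) (hK : K ≤ MulAction.stabilizer G v) (y : Fb N I v) :
    ∃ l : Additive (N.subgroupOf K) →+ DD, ∀ (k : K) (δ : Multiplicative DD),
      rK v K hK (k, δ) y = y ↔
        ∃ hk : k ∈ N.subgroupOf K, l (Additive.ofMul ⟨k, hk⟩) + δ.toAdd = 0 :=
  ⟨y.1.1.2.2.1.comp (MonoidHom.toAdditive (conjRep (N := N) y.1.1.2.1.out y.2 K hK)),
    fun k δ => fixK K hK k δ y⟩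

/-- points with given characters -/
theorem pointV (hab : ∀ v : V, ∀ a ∈ N, ∀ b ∈ N, a • v = v → b • v = v → a * b = b * a)
    {v : V} (K : Subgroup G) (hK : K ≤ MulAction.stabilizer G v)
    (l : Additive (N.subgroupOf K) →+ DD) (i : I) :
    ∃ y : Fb N I v, y.1.1.2.2.2 = i ∧ ∀ (k : K) (δ : Multiplicative DD),
      rK v K hK (k, δ) y = y ↔
        ∃ hk : k ∈ N.subgroupOf K, l (Additive.ofMul ⟨k, hk⟩) + δ.toAdd = 0 := by
  let o : Ob G V := Quotient.mk _ v
  have ho : ∃ g : G, g • rp o = v := by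
    have h1 : MulAction.orbitRel G V (rp o) v := Quotient.exact (Quotient.out_eq o)
    obtain ⟨g, hg⟩ := (MulAction.orbitRel G V).symm h1
    exact ⟨g, hg⟩
  obtain ⟨g, hg⟩ := ho
  let x : G ⧸ Mo N o := (g : G ⧸ Mo N o)
  have hx : x.out • rp o = v := by
    have h1 : g⁻¹ * x.out ∈ Mo N o := by
      rw [← QuotientGroup.eq]
      exact (QuotientGroup.out_eq' x).symm
    have h2 : (g⁻¹ * x.out) • rp o = rp o := h1.2
    rw [mul_smul, inv_smul_eq_iff, hg] at h2
    exact h2
  obtain ⟨m, hm⟩ := ext_char (H := Mo N o)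
    (fun a b => Subtype.ext (hab (rp o) a a.2.1 b b.2.1 a.2.2 b.2.2))
    (conjRep (N := N) x.out hx K hK) (conjRep_injective _ _ _ _) l
  refine ⟨⟨((⟨o, x, m, i⟩ : Bs (Mo (V := V) N) I), 0), hx⟩, rfl, fun k δ => ?_⟩
  rw [fixK]
  constructor
  · rintro ⟨hk, h⟩
    refine ⟨hk, ?_⟩
    rw [← hm ⟨k, hk⟩]
    exact h
  · rintro ⟨hk, h⟩
    refine ⟨hk, ?_⟩
    rw [← hm ⟨k, hk⟩] at h
    exact h

theorem idxK {v : V} (K : Subgroup G) (hK : K ≤ MulAction.stabilizer G v)
    (l : K × Multiplicative DD) (y : Fb N I v) :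
    (rK v K hK l y).1.1.2.2.2 = y.1.1.2.2.2 := rfl

/-- **matching of the fibres** -/
theorem matchV (hab : ∀ v : V, ∀ a ∈ N, ∀ b ∈ N, a • v = v → b • v = v → a * b = b * a)
    (e : Bs (Mo (V := V) N) I × DD → I) (he : Function.Injective e) (v w : V) (K : Subgroup G)
    (hv : K ≤ MulAction.stabilizer G v) (hw : K ≤ MulAction.stabilizer G w) :
    ∃ ψ : Fb N I v ≃ Fb N I w, ∀ l y, ψ (rK v K hv l y) = rK w K hw l (ψ y) := by
  choose l₁ hl₁ using labelV (I := I) (N := N) K hv
  choose l₂ hl₂ using labelV (I := I) (N := N) K hw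
  choose f hf hf' using fun y : Fb N I v => pointV hab K hw (l₁ y) (e y.1)
  choose g hg hg' using fun y : Fb N I w => pointV hab K hv (l₂ y) (e y.1)
  refine exists_equiv (rK v K hv) (rK w K hw) f g ?_ ?_ ?_ ?_
  · rintro y z ⟨l, hl⟩
    have h1 := congrArg (fun u : Fb N I w => u.1.1.2.2.2) hl
    simp only [idxK, hf] at h1
    exact ⟨1, by rw [map_one]; exact Subtype.ext (he h1)⟩
  · rintro y ⟨k, δ⟩
    rw [hl₁, hf']
  · rintro y z ⟨l, hl⟩
    have h1 := congrArg (fun u : Fb N I v => u.1.1.2.2.2) hl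
    simp only [idxK, hg] at h1
    exact ⟨1, by rw [map_one]; exact Subtype.ext (he h1)⟩
  · rintro y ⟨k, δ⟩
    rw [hl₂, hg']

theorem rK_one {v : V} (K : Subgroup G) (hK : K ≤ MulAction.stabilizer G v) (k : K)
    (y : Fb N I v) : (rK v K hK (k, 1) y).1 = ac (k : G) y.1 := by
  show sh (Multiplicative.toAdd (1 : Multiplicative DD)) (ac _ _) = _
  unfold sh
  rw [toAdd_one, add_zero]

theorem rK_sh {v : V} (K : Subgroup G) (hK : K ≤ MulAction.stabilizer G v) (δ : DD)
    (y : Fb N I v) : (rK v K hK (1, Multiplicative.ofAdd δ) y).1 = sh δ y.1 := by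
  show sh (Multiplicative.toAdd (Multiplicative.ofAdd δ)) (ac ((1 : K) : G) _) = _
  rw [Subgroup.coe_one, ac_one, toAdd_ofAdd]

/-- the exchange of two fibres -/
theorem exists_swap (hab : ∀ v : V, ∀ a ∈ N, ∀ b ∈ N, a • v = v → b • v = v → a * b = b * a)
    (e : Bs (Mo (V := V) N) I × DD → I) (he : Function.Injective e) (v w : V) (hvw : v ≠ w) :
    ∃ σ : Equiv.Perm (Bs (Mo (V := V) N) I × DD), σ * σ = 1 ∧
      (∀ k : G, k • v = v → k • w = w → ta (Mo (V := V) N) I k * σ = σ * ta (Mo (V := V) N) I k) ∧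
      (∀ (δ : DD) y, σ (sh δ y) = sh δ (σ y)) ∧ (∀ y, pr y = v → pr (σ y) = w) ∧
      ∀ y, pr y = w → pr (σ y) = v := by
  classical
  let K : Subgroup G := MulAction.stabilizer G v ⊓ MulAction.stabilizer G w
  obtain ⟨ψ, hψ⟩ := matchV hab e he v w K inf_le_left inf_le_right
  let s : Bs (Mo (V := V) N) I × DD → Bs (Mo (V := V) N) I × DD := fun y =>
    if h : pr y = v then (ψ ⟨y, h⟩).1 else if h : pr y = w then (ψ.symm ⟨y, h⟩).1 else y
  have s1 : ∀ y (h : pr y = v), s y = (ψ ⟨y, h⟩).1 := fun y h => dif_pos h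
  have s2 : ∀ y (h : pr y = w), s y = (ψ.symm ⟨y, h⟩).1 := fun y h => by
    have h' : ¬ pr y = v := fun h'' => hvw (h''.symm.trans h)
    show dite _ _ _ = _
    rw [dif_neg h', dif_pos h]
  have s3 : ∀ y, pr y ≠ v → pr y ≠ w → s y = y := fun y h h' => by
    show dite _ _ _ = _
    rw [dif_neg h, dif_neg h']
  have ss : ∀ y, s (s y) = y := by
    intro y
    by_cases h : pr y = v
    · rw [s1 y h, s2 _ (ψ ⟨y, h⟩).2]
      show (ψ.symm (ψ ⟨y, h⟩)).1 = y
      rw [Equiv.symm_apply_apply]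
    · by_cases h' : pr y = w
      · rw [s2 y h', s1 _ (ψ.symm ⟨y, h'⟩).2]
        show (ψ (ψ.symm ⟨y, h'⟩)).1 = y
        rw [Equiv.apply_symm_apply]
      · rw [s3 y h h', s3 y h h']
  have hψs : ∀ l y, ψ.symm (rK w K inf_le_right l y) = rK v K inf_le_left l (ψ.symm y) := by
    intro l y
    rw [Equiv.symm_apply_eq, hψ, Equiv.apply_symm_apply]
  refine ⟨⟨s, s, ss, ss⟩, ?_, ?_, ?_, ?_, ?_⟩
  · ext1 y
    exact ss y
  · intro k hkv hkw
    ext1 y
    show ac k (s y) = s (ac k y)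
    by_cases h : pr y = v
    · have h1 : pr (ac k y) = v := by rw [pr_ac, h, hkv]
      rw [s1 y h, s1 _ h1]
      have h2 := congrArg Subtype.val (hψ (⟨k, hkv, hkw⟩, 1) ⟨y, h⟩)
      rw [rK_one] at h2
      rw [← h2]
      congr 2
      apply Subtype.ext
      exact rK_one _ _ _ _
    · by_cases h' : pr y = w
      · have h1 : pr (ac k y) = w := by rw [pr_ac, h', hkw]
        rw [s2 y h', s2 _ h1]
        have h2 := congrArg Subtype.val (hψs (⟨k, hkv, hkw⟩, 1) ⟨y, h'⟩)
        rw [rK_one] at h2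
        rw [← h2]
        congr 2
        apply Subtype.ext
        exact rK_one _ _ _ _
      · rw [s3 y h h', s3]
        · rw [pr_ac]
          intro h1
          apply h
          rw [← hkv] at h1
          exact (MulAction.injective k h1)
        · rw [pr_ac]
          intro h1
          apply h'
          rw [← hkw] at h1
          exact (MulAction.injective k h1)
  · intro δ y
    show s (sh δ y) = sh δ (s y)
    by_cases h : pr y = v
    · have h1 : pr (sh δ y) = v := h
      rw [s1 y h, s1 _ h1]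
      have h2 := congrArg Subtype.val (hψ (1, Multiplicative.ofAdd δ) ⟨y, h⟩)
      rw [rK_sh] at h2
      rw [← h2]
      congr 2
      apply Subtype.ext
      exact (rK_sh (N := N) K inf_le_left δ ⟨y, h⟩).symm
    · by_cases h' : pr y = w
      · have h1 : pr (sh δ y) = w := h'
        rw [s2 y h', s2 _ h1]
        have h2 := congrArg Subtype.val (hψs (1, Multiplicative.ofAdd δ) ⟨y, h'⟩)
        rw [rK_sh] at h2
        rw [← h2]
        congr 2
        apply Subtype.ext
        exact (rK_sh (N := N) K inf_le_right δ ⟨y, h'⟩).symm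
      · rw [s3 y h h', s3 (sh δ y) h h']
  · intro y h
    show pr (s y) = w
    rw [s1 y h]
    exact (ψ ⟨y, h⟩).2
  · intro y h
    show pr (s y) = v
    rw [s2 y h]
    exact (ψ.symm ⟨y, h⟩).2

end main

end Pool.Agent.KS6_55.FJT
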